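import Pool.Agent.N765.HY.LatFin

set_option autoImplicit false

open Matrix MeasureTheory

namespace Pool.Agent.Results.MP_5d4057_al.FreeHybrids

/-- The Hermitian form `⟨z, w⟩ = -z₀ w̄₀ + z₁ w̄₁ + ... + zₙ w̄ₙ` of signature `(n, 1)` on `ℂⁿ⁺¹`. -/
noncomputable def form (n : ℕ) (z w : Fin (n + 1) → ℂ) : ℂ :=
  -(z 0 * (starRingEnd ℂ) (w 0)) + ∑ i : Fin n, z i.succ * (starRingEnd ℂ) (w i.succ)

/-- The group `SU(n, 1)`: the complex matrices of determinant `1` which preserve the form. -/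
def SU (n : ℕ) : Subgroup (SpecialLinearGroup (Fin (n + 1)) ℂ) where
  carrier := {g | ∀ z w, form n (g.1 *ᵥ z) (g.1 *ᵥ w) = form n z w}
  mul_mem' := (Pool.Agent.N765.HY.SU n).mul_mem'
  one_mem' := (Pool.Agent.N765.HY.SU n).one_mem'
  inv_mem' := (Pool.Agent.N765.HY.SU n).inv_mem'

/-- `Γ` is a lattice of `SU(n, 1)`: it is discrete and the quotient `SU(n, 1)/Γ` has a nonzero finite
invariant Borel measure. -/
def IsLattice (n : ℕ) (Γ : Subgroup (SU n)) : Prop :=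
  DiscreteTopology Γ ∧
    ∃ μ : @Measure (SU n ⧸ Γ) (borel (SU n ⧸ Γ)), @IsFiniteMeasure _ (borel (SU n ⧸ Γ)) μ ∧ μ ≠ 0 ∧
      ∀ g : SU n, @Measure.map _ _ (borel (SU n ⧸ Γ)) (borel (SU n ⧸ Γ)) (fun x => g • x) μ = μ

/-- `Γ` contains a loxodromic element: an element with an eigenvalue of modulus `≠ 1`. -/
def HasLoxodromic (n : ℕ) (Γ : Subgroup (SU n)) : Prop :=
  ∃ g ∈ Γ, ∃ (v : Fin (n + 1) → ℂ) (l : ℂ), v ≠ 0 ∧ g.1.1 *ᵥ v = l • v ∧ ‖l‖ ≠ 1

/-- `Γ` has no finite orbit at infinity: the orbit of every null line is infinite. -/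
def NoFiniteOrbit (n : ℕ) (Γ : Subgroup (SU n)) : Prop :=
  ∀ v : Fin (n + 1) → ℂ, v ≠ 0 → form n v v = 0 →
    {L : Submodule ℂ (Fin (n + 1) → ℂ) | ∃ g ∈ Γ, L = Submodule.span ℂ {g.1.1 *ᵥ v}}.Infinite

/-- `Γ` is the image of a free product `Δ ∗ Δ`, where `Δ` is a subgroup of finite index of `SL(2, ℤ)`,
free of rank `k`, under a homomorphism which is injective on both factors. -/
def IsFreeHybrid (k : ℕ) (Γ : Type) [Group Γ] : Prop :=
  ∃ Δ : Subgroup (SpecialLinearGroup (Fin 2) ℤ), Δ.FiniteIndex ∧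
    Nonempty (FreeGroup (Fin k) ≃* Δ) ∧ ∃ ρ : Monoid.Coprod Δ Δ →* Γ,
      Function.Surjective ρ ∧ Function.Injective (ρ.comp Monoid.Coprod.inl) ∧
      Function.Injective (ρ.comp Monoid.Coprod.inr)

/-- Every finitely generated lattice of `SU(n, 1)`, `n ≥ 1`, and more generally every finitely
generated subgroup with a loxodromic element and without finite orbits at infinity, is the image of a
free product of two free subgroups of finite index of `SL(2, ℤ)` under a homomorphism which is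
injective on both factors; the rank can be any large number. -/
theorem result (n : ℕ) (Γ : Subgroup (SU n)) (hfg : Γ.FG)
    (h : (1 ≤ n ∧ IsLattice n Γ) ∨ (HasLoxodromic n Γ ∧ NoFiniteOrbit n Γ)) :
    ∃ K : ℕ, ∀ k : ℕ, K ≤ k → IsFreeHybrid k Γ := by
  have key : (∃ h ∈ Γ, ∃ (v : Fin (n + 1) → ℂ) (l : ℂ), v ≠ 0 ∧ h.1.1 *ᵥ v = l • v ∧ ‖l‖ ≠ 1) ∧
      (∀ v : Fin (n + 1) → ℂ, v ≠ 0 → form n v v = 0 →
        (Pool.Agent.N765.HY.Orb (n := n) Γ v).Infinite) := by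
    rcases h with ⟨hn, hl⟩ | ⟨hl, ho⟩
    · exact Pool.Agent.N765.HY.lattice_ok hn Γ hl.2
    · refine ⟨hl, fun v h1 h2 => (ho v h1 h2).mono ?_⟩
      rintro _ ⟨g, hg, rfl⟩
      exact ⟨⟨g, hg⟩, rfl⟩
  exact Pool.Agent.N765.HY.main (n := n) Γ hfg key.1 key.2

end Pool.Agent.Results.MP_5d4057_al.FreeHybrids
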